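import Mathlib
import Pool.Agent.Lib.MP_e1cc60_co.Count

set_option autoImplicit false

/-!
Problem `MP_e1cc60_co` (Welsh: unimodality of the number of matroids by rank). Among the `~ N^2 / 2`
steps `f_r(n) -> f_{r+1}(n)` with `n ≤ N` all but `O(N log N)` go in the conjectured direction, and
only `O(N (1 + log (N / S)))` steps at distance at least `S` from the middle go the wrong way.
-/

namespace Pool.Agent.Results.MP_e1cc60_co.AlmostAllSteps

/-- Let `f n r` be the number of isomorphism classes of matroids of rank `r` on an `n`-element set.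
There is a constant `C` such that for all `1 ≤ S ≤ N` there are at most `C N (1 + log (N / S))`
pairs `(n, r)` with `n ≤ N`, `r < n` such that either `2 r + 1 + S ≤ n` (the step from `r` to
`r + 1` is in the left half, at distance at least `S` from the middle) and `f n (r + 1) < f n r`, or
`n + S ≤ 2 r + 1` (right half) and `f n r < f n (r + 1)`. -/
theorem result :
    ∃ C : ℝ, ∀ f : ℕ → ℕ → ℕ,
      (∀ n r : ℕ, f n r =
        {C : Set (Matroid (Fin n)) | ∃ M : Matroid (Fin n), M.E = Set.univ ∧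
            (∃ B : Set (Fin n), M.IsBase B ∧ B.ncard = r) ∧
            C = {N : Matroid (Fin n) | N.E = Set.univ ∧
                (∃ B : Set (Fin n), N.IsBase B ∧ B.ncard = r) ∧
                ∃ e : Equiv.Perm (Fin n), ∀ B : Set (Fin n),
                  M.IsBase B ↔ N.IsBase (e '' B)}}.ncard) →
      ∀ N S : ℕ, 1 ≤ S → S ≤ N →
        ({p : ℕ × ℕ | p.1 ≤ N ∧ p.2 < p.1 ∧
            ((2 * p.2 + 1 + S ≤ p.1 ∧ f p.1 (p.2 + 1) < f p.1 p.2) ∨
              (p.1 + S ≤ 2 * p.2 + 1 ∧ f p.1 p.2 < f p.1 (p.2 + 1)))}.ncard : ℝ) ≤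
          C * N * (1 + Real.log (N / S)) := by
  classical
  obtain ⟨C, hC0, hC⟩ := Pool.Agent.MatCount.LL_card
  refine ⟨2 * C, fun f hf N S hS hSN => ?_⟩
  have hfr : ∀ n r, f n r = Pool.Agent.MatCount.numClasses n r := by
    intro n r
    rw [hf n r]
    unfold Pool.Agent.MatCount.numClasses
    congr 1
    ext C
    constructor
    · rintro ⟨M, h1, h2, h3⟩
      exact ⟨M, ⟨h1, h2⟩, h3⟩
    · rintro ⟨M, ⟨h1, h2⟩, h3⟩
      exact ⟨M, h1, h2, h3⟩
  have hsub : {p : ℕ × ℕ | p.1 ≤ N ∧ p.2 < p.1 ∧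
            ((2 * p.2 + 1 + S ≤ p.1 ∧ f p.1 (p.2 + 1) < f p.1 p.2) ∨
              (p.1 + S ≤ 2 * p.2 + 1 ∧ f p.1 p.2 < f p.1 (p.2 + 1)))} ⊆
      ↑(Pool.Agent.MatCount.LL S N ∪
        (Pool.Agent.MatCount.LL S N).image (fun q => (q.1, q.1 - 1 - q.2))) := by
    rintro ⟨n, r⟩ ⟨h1, h2, h3⟩
    simp only at h1 h2 h3
    rw [Finset.mem_coe, Finset.mem_union]
    rcases h3 with ⟨h3, h4⟩ | ⟨h3, h4⟩
    · left
      unfold Pool.Agent.MatCount.LL
      rw [Finset.mem_filter, Finset.mem_product, Finset.mem_range, Finset.mem_range]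
      refine ⟨⟨by simp only; omega, by simp only; omega⟩, h3, ?_⟩
      unfold Pool.Agent.MatCount.Viol
      rw [hfr, hfr] at h4
      exact h4
    · right
      rw [Finset.mem_image]
      refine ⟨(n, n - 1 - r), ?_, ?_⟩
      · unfold Pool.Agent.MatCount.LL
        rw [Finset.mem_filter, Finset.mem_product, Finset.mem_range, Finset.mem_range]
        refine ⟨⟨by simp only; omega, by simp only; omega⟩, by simp only; omega, ?_⟩
        unfold Pool.Agent.MatCount.Viol
        simp only
        rw [hfr, hfr] at h4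
        have e1 : n - 1 - r + 1 = n - r := by omega
        have e2 : n - 1 - r = n - (r + 1) := by omega
        rw [e1, e2, Pool.Agent.MatCount.numClasses_dual (by omega),
          Pool.Agent.MatCount.numClasses_dual (by omega)]
        exact h4
      · apply Prod.ext
        · rfl
        · simp only
          omega
  have hcard := Set.ncard_le_ncard hsub (Finset.finite_toSet _)
  rw [Set.ncard_coe_finset] at hcard
  have h2 : (Pool.Agent.MatCount.LL S N ∪
        (Pool.Agent.MatCount.LL S N).image (fun q => (q.1, q.1 - 1 - q.2))).card ≤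
      2 * (Pool.Agent.MatCount.LL S N).card := by
    refine (Finset.card_union_le _ _).trans ?_
    have := Finset.card_image_le (s := Pool.Agent.MatCount.LL S N)
      (f := fun q : ℕ × ℕ => (q.1, q.1 - 1 - q.2))
    omega
  have h3 := hcard.trans h2
  have h4 := hC S hS N hSN
  have h5 : ({p : ℕ × ℕ | p.1 ≤ N ∧ p.2 < p.1 ∧
            ((2 * p.2 + 1 + S ≤ p.1 ∧ f p.1 (p.2 + 1) < f p.1 p.2) ∨
              (p.1 + S ≤ 2 * p.2 + 1 ∧ f p.1 p.2 < f p.1 (p.2 + 1)))}.ncard : ℝ) ≤
      2 * ((Pool.Agent.MatCount.LL S N).card : ℝ) := by exact_mod_cast h3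
  linarith

end Pool.Agent.Results.MP_e1cc60_co.AlmostAllSteps
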