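import Mathlib
import Pool.Agent.Lib.MP_e1cc60_co.RankOne

set_option autoImplicit false

/-!
Problem `MP_e1cc60_co` (Welsh: unimodality of the number of matroids by rank). For large `n` the
sequence increases, as conjectured, between any two ranks `i ≤ j ≤ n/2` except possibly when both
lie in the window `(0.3819 n, n/2]` and the binomial coefficients `n.choose i` and `n.choose j`
differ by a factor less than `(1 + δ) n / (n - i) ≤ 2 (1 + δ)`.
-/

namespace Pool.Agent.Results.MP_e1cc60_co.MonotoneRanks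

/-- Let `f r` be the number of isomorphism classes of matroids of rank `r` on an `n`-element set.
For every `δ > 0` and all sufficiently large `n`: if `i ≤ j ≤ n/2`, and either
`i ≤ ((3 - √5)/2 - δ) n` or `(1 + δ) n C(n,i) ≤ (n - i) C(n,j)`, then `f i ≤ f j`, and
(the mirror image) `f (n - i) ≤ f (n - j)`. -/
theorem result :
    ∀ δ : ℝ, 0 < δ → ∃ n₀ : ℕ, ∀ n : ℕ, n₀ ≤ n → ∀ f : ℕ → ℕ,
      (∀ r : ℕ, f r =
        {C : Set (Matroid (Fin n)) | ∃ M : Matroid (Fin n), M.E = Set.univ ∧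
            (∃ B : Set (Fin n), M.IsBase B ∧ B.ncard = r) ∧
            C = {N : Matroid (Fin n) | N.E = Set.univ ∧
                (∃ B : Set (Fin n), N.IsBase B ∧ B.ncard = r) ∧
                ∃ e : Equiv.Perm (Fin n), ∀ B : Set (Fin n),
                  M.IsBase B ↔ N.IsBase (e '' B)}}.ncard) →
      ∀ i j : ℕ, i ≤ j → 2 * j ≤ n →
        ((i : ℝ) ≤ ((3 - Real.sqrt 5) / 2 - δ) * n ∨
          (1 + δ) * n * (n.choose i : ℝ) ≤ (n - i) * (n.choose j : ℝ)) →
        f i ≤ f j ∧ f (n - i) ≤ f (n - j) := by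
  intro δ hδ
  obtain ⟨n₀, h⟩ := Pool.Agent.MatCount.main hδ
  refine ⟨n₀, fun n hn f hf => ?_⟩
  have hfr : ∀ r, f r = Pool.Agent.MatCount.numClasses n r := by
    intro r
    rw [hf r]
    unfold Pool.Agent.MatCount.numClasses
    congr 1
    ext C
    constructor
    · rintro ⟨M, h1, h2, h3⟩
      exact ⟨M, ⟨h1, h2⟩, h3⟩
    · rintro ⟨M, ⟨h1, h2⟩, h3⟩
      exact ⟨M, h1, h2, h3⟩
  intro i j hij h2j hc
  have key := h n hn i j hij h2j hc
  refine ⟨?_, ?_⟩
  · rw [hfr, hfr]
    exact key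
  · rw [hfr, hfr, Pool.Agent.MatCount.numClasses_dual (by omega),
      Pool.Agent.MatCount.numClasses_dual (by omega)]
    exact key

end Pool.Agent.Results.MP_e1cc60_co.MonotoneRanks
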